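import Pool.Agent.MP_d9582c_gt.H34.Stmts2

/-!
Comparison of the analytic and the combinatorial spectrum near zero.
-/

open scoped InnerProductSpace ENNReal Topology
open MeasureTheory Set Filter ContinuousLinearMap

noncomputable section

namespace Pool.Agent.MP_d9582c_gt.H35

open Pool.Agent.MP_d9582c_gt.H34

universe u v

lemma exists_cut {a b : ℝ} (hab : a < b) : ∃ α : ℝ → ℝ, Continuous α ∧ (∀ x, 0 ≤ α x) ∧
    (∀ x, α x ≤ 1) ∧ (∀ x ≤ a, α x = 0) ∧ ∀ x, b ≤ x → α x = 1 := by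
  have h : 0 < b - a := sub_pos.2 hab
  refine ⟨fun x => max 0 (min 1 ((x - a) / (b - a))), by fun_prop, fun x => le_max_left _ _,
    fun x => max_le zero_le_one (min_le_left _ _), fun x hx => ?_, fun x hx => ?_⟩
  · exact max_eq_left ((min_le_right _ _).trans
      (div_nonpos_of_nonpos_of_nonneg (sub_nonpos.2 hx) h.le))
  · have : 1 ≤ (x - a) / (b - a) := by rw [le_div_iff₀ h]; linarith
    simp only [min_eq_left this, max_eq_right zero_le_one]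

lemma exists_cut' {a b : ℝ} (hab : a < b) : ∃ β : ℝ → ℝ, Continuous β ∧ (∀ x, 0 ≤ β x) ∧
    (∀ x, β x ≤ 1) ∧ (∀ x ≤ a, β x = 1) ∧ ∀ x, b ≤ x → β x = 0 := by
  obtain ⟨α, h1, h2, h3, h4, h5⟩ := exists_cut hab
  exact ⟨fun x => 1 - α x, by fun_prop, fun x => sub_nonneg.2 (h3 x),
    fun x => sub_le_self _ (h2 x), fun x hx => by simp [h4 x hx], fun x hx => by simp [h5 x hx]⟩

section Comb

variable {B : Type*} [NormedAddCommGroup B] [InnerProductSpace ℂ B] [CompleteSpace B]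
  (A : B →L[ℂ] B)

/-- The projection onto the orthogonal complement of the kernel. -/
abbrev perp : B →L[ℂ] B := (LinearMap.ker A.toLinearMap)ᗮ.starProjection

lemma sq_nonneg' : 0 ≤ adjoint A ∘L A :=
  (nonneg_iff_isPositive _).2 (isPositive_adjoint_comp_self A)

lemma sq_sa : IsSelfAdjoint (adjoint A ∘L A) := (sq_nonneg' A).isSelfAdjoint

lemma spec_nonneg {x : ℝ} (hx : x ∈ spectrum ℝ (adjoint A ∘L A)) : 0 ≤ x :=
  spectrum_nonneg_of_nonneg (sq_nonneg' A) hx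

lemma qf_id (y : B) : qf (adjoint A ∘L A) (fun x => x) y = ‖A y‖ ^ 2 := by
  rw [qf, cfc_id_apply (sq_sa A), comp_apply, adjoint_inner_right, @norm_sq_eq_re_inner ℂ]
  rfl

lemma apply_perp (u : B) : A (perp A u) = A u := by
  have h : u - perp A u ∈ (LinearMap.ker A.toLinearMap)ᗮᗮ :=
    Submodule.sub_starProjection_mem_orthogonal u
  rw [Submodule.orthogonal_orthogonal_eq_closure, A.isClosed_ker.submodule_topologicalClosure_eq,
    LinearMap.mem_ker] at h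
  have h' : A (u - perp A u) = 0 := h
  rw [map_sub, sub_eq_zero] at h'
  exact h'.symm

lemma sq_perp (u : B) : (adjoint A ∘L A) (perp A u) = perp A ((adjoint A ∘L A) u) := by
  rw [comp_apply, comp_apply, apply_perp, eq_comm, Submodule.starProjection_eq_self_iff,
    Submodule.mem_orthogonal]
  intro w hw
  have h' : A w = 0 := hw
  rw [adjoint_inner_right, h', inner_zero_left]

lemma cfc_perp_mem (β : ℝ → ℝ) (u : B) :
    cfc β (adjoint A ∘L A) (perp A u) ∈ (LinearMap.ker A.toLinearMap)ᗮ := by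
  rw [cfc_comm_apply (sq_perp A)]
  exact Submodule.starProjection_apply_mem _ _

lemma low_part {β : ℝ → ℝ} (hβ : Continuous β) (h0 : ∀ x, 0 ≤ β x) (h1 : ∀ x, β x ≤ 1) {μ : ℝ}
    (hμ : 0 ≤ μ) (h2 : ∀ x ≤ μ, β x = 1) (y : B) :
    μ * ‖y - cfc β (adjoint A ∘L A) y‖ ^ 2 ≤ ‖A y‖ ^ 2 := by
  have hT := sq_sa A
  have e1 : y - cfc β (adjoint A ∘L A) y = cfc (fun x => 1 - β x) (adjoint A ∘L A) y := by
    rw [cfc_sub _ _ _ continuousOn_const hβ.continuousOn, cfc_const_one ℝ (adjoint A ∘L A)]; rfl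
  rw [e1, norm_cfc_sq (by fun_prop), ← qf_const_mul (by fun_prop), ← qf_id]
  refine qf_mono (by fun_prop) (by fun_prop) (fun x hx => ?_) y
  rcases le_total x μ with h | h
  · simpa [h2 x h] using spec_nonneg A hx
  · have : (1 - β x) ^ 2 ≤ 1 := by nlinarith [h0 x, h1 x]
    nlinarith

lemma band_part {β : ℝ → ℝ} (hβ : Continuous β) {μ : ℝ} (h2 : ∀ x, μ ≤ x → β x = 0) (y : B) :
    ‖A (cfc β (adjoint A ∘L A) y)‖ ^ 2 ≤ μ * ‖cfc β (adjoint A ∘L A) y‖ ^ 2 := by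
  rw [← qf_id, qf_cfc (by fun_prop) hβ, norm_cfc_sq hβ, ← qf_const_mul (by fun_prop)]
  refine qf_mono (by fun_prop) (by fun_prop) (fun x _ => ?_) y
  rcases le_total x μ with h | h
  · nlinarith [sq_nonneg (β x)]
  · simp [h2 x h]

lemma norm_cut_le {β : ℝ → ℝ} (h0 : ∀ x, 0 ≤ β x) (h1 : ∀ x, β x ≤ 1) (T : B →L[ℂ] B) :
    ‖cfc β T‖ ≤ 1 :=
  norm_cfc_le_one fun x _ => by rw [abs_of_nonneg (h0 x)]; exact h1 x

variable {A} {Q : Type*} [Group Q] {V : URep Q B}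

lemma equi_perp (hA : Equi V V A) : Equi V V (perp A) := by
  refine equi_starProjection _ fun q u hu => ?_
  rw [Submodule.mem_orthogonal'] at hu ⊢
  intro w hw
  rw [inner_rep]
  apply hu
  have h' : A w = 0 := hw
  change A (V q⁻¹ w) = 0
  rw [hA, h', map_zero]

lemma equi_cut (hA : Equi V V A) (β : ℝ → ℝ) :
    Equi V V (cfc β (adjoint A ∘L A) ∘L perp A) :=
  ((hA.adjoint.comp hA).cfc β).comp (equi_perp hA)

end Comb

section Meas

variable (hM : MeasStmt.{v}) {B : Type v} [NormedAddCommGroup B] [InnerProductSpace ℂ B]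
  [CompleteSpace B] (A : B →L[ℂ] B) {r : ℕ} (w : Fin r → B) {β : ℝ → ℝ}
include hM

lemma hs_cut_eq (hβ : Continuous β) : hs w (cfc β (adjoint A ∘L A) ∘L perp A) =
    ∫⁻ x in Ioi 0, ENNReal.ofReal (β x ^ 2) ∂(specMeasure (adjoint A ∘L A) w) := by
  rw [hs, tsum_fintype]
  exact hM B B A r w β hβ

lemma hs_cut_le (hβ : Continuous β) (h0 : ∀ x, 0 ≤ β x) (h1 : ∀ x, β x ≤ 1) {b : ℝ}
    (h2 : ∀ x, b ≤ x → β x = 0) : hs w (cfc β (adjoint A ∘L A) ∘L perp A) ≤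
      specMeasure (adjoint A ∘L A) w (Ioc 0 b) := by
  rw [hs_cut_eq hM A w hβ, ← lintegral_indicator_one measurableSet_Ioc,
    ← lintegral_indicator measurableSet_Ioi]
  refine lintegral_mono fun x => ?_
  by_cases hx : x ∈ Ioi (0 : ℝ)
  · rw [indicator_of_mem hx]
    by_cases hb : x ≤ b
    · rw [indicator_of_mem (show x ∈ Ioc 0 b from ⟨hx, hb⟩), Pi.one_apply, ENNReal.ofReal_le_one]
      nlinarith [h0 x, h1 x]
    · simp [h2 x (not_le.1 hb).le]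
  · simp [indicator_of_notMem hx]

lemma le_hs_cut (hβ : Continuous β) {a : ℝ} (h2 : ∀ x ≤ a, β x = 1) :
    specMeasure (adjoint A ∘L A) w (Ioc 0 a) ≤ hs w (cfc β (adjoint A ∘L A) ∘L perp A) := by
  rw [hs_cut_eq hM A w hβ, ← lintegral_indicator_one measurableSet_Ioc,
    ← lintegral_indicator measurableSet_Ioi]
  refine lintegral_mono fun x => ?_
  by_cases hx : x ∈ Ioc 0 a
  · rw [indicator_of_mem hx, indicator_of_mem (show x ∈ Ioi 0 from hx.1), h2 x hx.2]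
    simp
  · simp [indicator_of_notMem hx]

end Meas

lemma heatFn_sq (t x : ℝ) : heatFn (t / 2) x ^ 2 = heatFn t x := by
  rw [sq, ← heatFn_add, add_halves]

lemma heat_split {α : ℝ → ℝ} {l t x : ℝ} (hl : 0 < l) (ht : 1 ≤ t) (hx : x ≤ 1)
    (h1 : ∀ x, (1 + l)⁻¹ ≤ x → α x = 1) :
    heatFn (t / 2) x ^ 2 ≤ 1 * α x ^ 2 + Real.exp (-(t - 1) * l) * heatFn (1 / 2) x ^ 2 := by
  rw [heatFn_sq, heatFn_sq]
  have h0 := heatFn_nonneg 1 x
  rcases le_or_gt (1 + l)⁻¹ x with h | h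
  · have := heatFn_le_one (t := t) (by linarith) hx
    rw [h1 x h]
    nlinarith [mul_nonneg (Real.exp_pos (-(t - 1) * l)).le h0]
  · refine le_add_of_nonneg_of_le (by positivity) ?_
    unfold heatFn
    split_ifs with hx0
    · simp
    · rw [← Real.exp_add, Real.exp_le_exp]
      have h2 : 1 + l ≤ x⁻¹ := by
        rw [le_inv_comm₀ (by positivity) (not_le.1 hx0)]; exact h.le
      nlinarith [mul_nonneg (sub_nonneg.2 ht) (sub_nonneg.2 h2)]

lemma cut_le_heat {α : ℝ → ℝ} {t : ℝ} (ht : 0 < t) (h0 : ∀ x, 0 ≤ α x) (h1 : ∀ x, α x ≤ 1)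
    (h2 : ∀ x ≤ (1 + 2 * t⁻¹)⁻¹, α x = 0) (x : ℝ) :
    α x ^ 2 ≤ Real.exp 2 * heatFn (t / 2) x ^ 2 := by
  rcases le_or_gt x (1 + 2 * t⁻¹)⁻¹ with h | h
  · rw [h2 x h]; simp only [ne_eq, OfNat.ofNat_ne_zero, not_false_eq_true, zero_pow]; positivity
  · have hx : 0 < x := lt_trans (by positivity) h
    rw [heatFn_sq, heatFn, if_neg (not_le.2 hx), ← Real.exp_add]
    have h3 : x⁻¹ ≤ 1 + 2 * t⁻¹ := by
      rw [inv_le_comm₀ hx (by positivity)]; exact h.le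
    have h4 : t * (x⁻¹ - 1) ≤ 2 := by
      calc t * (x⁻¹ - 1) ≤ t * (2 * t⁻¹) := by gcongr; linarith
        _ = 2 := by field_simp
    have h5 : 1 ≤ Real.exp (2 + -t * (x⁻¹ - 1)) := Real.one_le_exp (by linarith)
    nlinarith [h0 x, h1 x]

lemma enorm_sq_le_ofReal {E : Type*} [NormedAddCommGroup E] {a : E} {c : ℝ} (h : ‖a‖ ≤ c) :
    ‖a‖ₑ ^ 2 ≤ ENNReal.ofReal (c ^ 2) := by
  rw [enorm_sq_eq]
  exact ENNReal.ofReal_le_ofReal (by gcongr)

theorem forward (hM : MeasStmt.{v}) : ForwardStmt.{u, v} := by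
  intro c hc
  have hc0 : 0 < c := by linarith
  have hc2 : 1 ≤ c ^ 2 := one_le_pow₀ hc
  have hc4 : 1 ≤ c ^ 4 := one_le_pow₀ hc
  refine ⟨256 * c ^ 4, by positivity, ?_⟩
  intro Q _ H K B _ _ _ _ _ _ _ _ _ Γ U ι v V r w A P J hΓ hv hw hR hA hP hJ hP1 hJc hPP hRP
    hmain t ht
  have ht1 : 256 ≤ t := by linarith
  have hs0 : 0 < √t := Real.sqrt_pos.2 (by linarith)
  have hss : √t * √t = t := Real.mul_self_sqrt (by linarith)
  have hs1 : 16 * c ^ 2 ≤ √t := Real.le_sqrt_of_sq_le (by nlinarith)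
  set l : ℝ := (√t)⁻¹ with hl
  have hl0 : 0 < l := by positivity
  have hl1 : 16 * c ^ 2 * l ≤ 1 := by
    rw [hl, ← div_eq_mul_inv, div_le_one hs0]; exact hs1
  obtain ⟨α, hα, hα0, hα1, hα2, hα3⟩ := exists_cut (a := (1 + l)⁻¹) (b := (1 + l / 2)⁻¹)
    (inv_strictAnti₀ (by positivity) (by linarith))
  obtain ⟨β, hβ, hβ0, hβ1, hβ2, hβ3⟩ := exists_cut' (a := 16 * c ^ 4 * l) (b := 32 * c ^ 4 * l)
    (by nlinarith [mul_pos (pow_pos hc0 4) hl0])
  set X : H →L[ℂ] H := cfc α (resolv Γ) ∘L P with hX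
  set Y : B →L[ℂ] B := cfc β (adjoint A ∘L A) ∘L perp A with hY
  have hXe : Equi U U X := (hR.cfc α).comp hP
  have hXn : ‖X‖ ≤ 1 := (opNorm_comp_le _ _).trans
    (mul_le_one₀ (norm_cut_le hα0 hα1 _) (norm_nonneg _) hP1)
  have step1 : hs v (heat Γ (t / 2) ∘L P) ≤ ENNReal.ofReal 1 * hs v X +
      ENNReal.ofReal (Real.exp (-(t - 1) * (l / 2))) * hs v (heat Γ (1 / 2)) := by
    refine hs_le_add_of_forall v zero_le_one (Real.exp_pos _).le fun u => ?_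
    have h1 := norm_cfc_sq_le_add (T := resolv Γ) (continuous_heatFn (t := t / 2) (by linarith))
      hα (continuous_heatFn (t := 1 / 2) (by norm_num))
      (fun x hx => heat_split (l := l / 2) (by positivity) (by linarith)
        (spectrum_resolv hΓ hx).2 hα3) (P u)
    refine h1.trans ?_
    rw [cfc_comm_apply hRP (heatFn (1 / 2))]
    have h2 : ‖P (cfc (heatFn (1 / 2)) (resolv Γ) u)‖ ≤ ‖heat Γ (1 / 2) u‖ :=
      (le_opNorm _ _).trans (mul_le_of_le_one_left (norm_nonneg _) hP1)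
    change _ ≤ 1 * ‖cfc α (resolv Γ) (P u)‖ ^ 2 + _
    gcongr
  have step2 : hs v X ≤ ENNReal.ofReal (4 * c ^ 2) * hs v (Y ∘L (J ∘L X)) := by
    refine hs_le_of_forall v fun u => ?_
    obtain ⟨k, hk, hk2⟩ := band hΓ hα hl0.le hα2 (P u)
    have hPx : P (X u) = X u := by
      change P (cfc α (resolv Γ) (P u)) = cfc α (resolv Γ) (P u)
      rw [← cfc_comm_apply hRP, hPP]
    obtain ⟨h1, h2⟩ := hmain (X u) k hk hPx
    change ‖k‖ ^ 2 ≤ l * ‖X u‖ ^ 2 at hk2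
    change ‖X u‖ ^ 2 ≤ 4 * c ^ 2 * ‖cfc β (adjoint A ∘L A) (perp A (J (X u)))‖ ^ 2
    change ‖X u‖ ≤ c * ‖perp A (J (X u))‖ + c * ‖k‖ at h1
    set y := perp A (J (X u)) with hy
    have h3 := low_part A hβ hβ0 hβ1 (by positivity) hβ2 y
    rw [hy, apply_perp, ← hy] at h3
    have h4 : ‖A (J (X u))‖ ^ 2 ≤ c ^ 2 * (l * ‖X u‖ ^ 2) := by
      calc ‖A (J (X u))‖ ^ 2 ≤ (c * ‖k‖) ^ 2 := by gcongr
        _ = c ^ 2 * ‖k‖ ^ 2 := by ring
        _ ≤ _ := by gcongr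
    have h5 : 4 * c * ‖y - cfc β (adjoint A ∘L A) y‖ ≤ ‖X u‖ := by
      refine le_of_sq_le_sq ?_ (norm_nonneg _)
      refine le_of_mul_le_mul_left ?_ (mul_pos (pow_pos hc0 2) hl0)
      nlinarith
    have h6 : 4 * c * ‖k‖ ≤ ‖X u‖ := by
      refine le_of_sq_le_sq ?_ (norm_nonneg _)
      nlinarith [mul_le_mul_of_nonneg_left hk2 (show 0 ≤ 16 * c ^ 2 by positivity),
        mul_le_mul_of_nonneg_right hl1 (sq_nonneg ‖X u‖)]
    have h7 : ‖y‖ ≤ ‖cfc β (adjoint A ∘L A) y‖ + ‖y - cfc β (adjoint A ∘L A) y‖ :=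
      norm_le_insert' _ _
    have h8 : ‖X u‖ ≤ 2 * c * ‖cfc β (adjoint A ∘L A) y‖ := by
      nlinarith [mul_le_mul_of_nonneg_left h7 hc0.le]
    calc ‖X u‖ ^ 2 ≤ (2 * c * ‖cfc β (adjoint A ∘L A) y‖) ^ 2 := by gcongr
      _ = _ := by ring
  have step3 : hs v (Y ∘L (J ∘L X)) ≤ ENNReal.ofReal (c ^ 2) * hs w Y := by
    refine (hs_comp_le hv hw (hJ.comp hXe) (equi_cut hA β)).trans ?_
    gcongr
    refine enorm_sq_le_ofReal ((opNorm_comp_le _ _).trans ?_)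
    exact (mul_le_of_le_one_right (norm_nonneg _) hXn).trans hJc
  have step4 : hs w Y ≤ specMeasure (adjoint A ∘L A) w (Ioc 0 (256 * c ^ 4 / √t)) := by
    refine (hs_cut_le hM A w hβ hβ0 hβ1 hβ3).trans (measure_mono (Ioc_subset_Ioc_right ?_))
    rw [div_eq_mul_inv, ← hl]
    nlinarith [mul_pos (pow_pos hc0 4) hl0]
  refine step1.trans (add_le_add ?_ ?_)
  · rw [ENNReal.ofReal_one, one_mul]
    calc hs v X ≤ ENNReal.ofReal (4 * c ^ 2) * (ENNReal.ofReal (c ^ 2) * hs w Y) :=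
          step2.trans (by gcongr)
      _ = ENNReal.ofReal (4 * c ^ 2 * c ^ 2) * hs w Y := by
          rw [ENNReal.ofReal_mul (p := 4 * c ^ 2) (by positivity), mul_assoc]
      _ ≤ _ := mul_le_mul' (ENNReal.ofReal_le_ofReal (by nlinarith)) step4
  · gcongr
    have h1 : √t / (256 * c ^ 4) ≤ √t / 4 := by gcongr; linarith
    have h2 : t * l = √t := by
      rw [hl, ← div_eq_mul_inv, Real.div_sqrt]
    have h3 : 2 * l ≤ t * l := by gcongr; linarith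
    rw [neg_div]
    nlinarith

theorem reverse (hM : MeasStmt.{v}) : ReverseStmt.{u, v} := by
  intro c hc m
  have hc0 : 0 < c := by linarith
  have hc2 : 1 ≤ c ^ 2 := one_le_pow₀ hc
  have hc4 : 1 ≤ c ^ 4 := one_le_pow₀ hc
  have he : 1 ≤ Real.exp 2 := Real.one_le_exp (by norm_num)
  have hm : (1 : ℝ) ≤ m + 1 := by linarith [Nat.cast_nonneg (α := ℝ) m]
  have hm2 : (1 : ℝ) ≤ (m + 1) ^ 2 := one_le_pow₀ hm
  set C : ℝ := 8 * c ^ 4 * (m + 1) ^ 2 * Real.exp 2 with hC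
  have hC1 : 8 * c ^ 4 * (m + 1) ^ 2 ≤ C := le_mul_of_one_le_right (by positivity) he
  have hC2 : 1 ≤ C := le_trans (by nlinarith) hC1
  refine ⟨C, by positivity, ?_⟩
  intro Q _ H K B _ _ _ _ _ _ _ _ _ Γ U ι v V r w A P J hw hA hp hmain t ht
  have ht0 : 0 < t := by linarith
  set μ : ℝ := C⁻¹ / t with hμ
  have hμ0 : 0 < μ := by positivity
  obtain ⟨α, hα, hα0, hα1, hα2, hα3⟩ := exists_cut (a := (1 + 2 * t⁻¹)⁻¹) (b := (1 + t⁻¹)⁻¹)
    (inv_strictAnti₀ (by positivity) (by linarith [inv_pos.2 ht0]))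
  obtain ⟨β, hβ, hβ0, hβ1, hβ2, hβ3⟩ := exists_cut' (a := μ) (b := 2 * μ) (by linarith)
  set Y : B →L[ℂ] B := cfc β (adjoint A ∘L A) ∘L perp A with hY
  have hYe : Equi V V Y := equi_cut hA β
  have hYn : ‖Y‖ ≤ 1 := (opNorm_comp_le _ _).trans
    (mul_le_one₀ (norm_cut_le hβ0 hβ1 _) (norm_nonneg _) (Submodule.starProjection_norm_le _))
  set ε : ℝ := (2 * c * (m + 1))⁻¹ with hε
  have hε0 : 0 < ε := by positivity
  have hε1 : 2 * c ^ 2 * C⁻¹ ≤ ε ^ 2 := by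
    rw [hε, inv_pow, ← div_eq_mul_inv, div_le_iff₀ (by positivity), ← div_eq_inv_mul,
      le_div_iff₀ (by positivity)]
    nlinarith
  have hε2 : c * (m + 1) * ε = 1 / 2 := by rw [hε]; field_simp
  have key : ∀ u, ‖Y u‖ ^ 2 ≤ 4 * c ^ 2 * m * Real.exp 2 *
      ∑ p ∈ Finset.range m, ‖heat (Γ p) (t / 2) (P p (J p (Y u)))‖ ^ 2 := by
    intro u
    obtain ⟨h1, h2⟩ := hmain (Y u) (cfc_perp_mem A β u)
    have h3 : ‖A (Y u)‖ ^ 2 ≤ 2 * μ * ‖Y u‖ ^ 2 := band_part A hβ hβ3 _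
    set y := Y u with hy
    have hμ1 : μ = C⁻¹ * t⁻¹ := div_eq_mul_inv _ _
    have h4 : ‖A y‖ ≤ ε * ‖y‖ := by
      refine le_of_sq_le_sq (h3.trans ?_) (by positivity)
      rw [mul_pow]
      gcongr
      refine le_trans ?_ hε1
      have : t⁻¹ ≤ 1 := inv_le_one_of_one_le₀ (by linarith)
      have h5 : 0 < C⁻¹ := by positivity
      rw [hμ1]
      nlinarith [mul_le_mul_of_nonneg_left this h5.le, mul_le_mul_of_nonneg_right hc2 h5.le]
    have h5 : ∀ p ∈ Finset.range m,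
        ‖P p (J p y)‖ ≤ ‖cfc α (resolv (Γ p)) (P p (J p y))‖ + ε * ‖y‖ := by
      intro p hp'
      have hp'' := Finset.mem_range.1 hp'
      obtain ⟨k, hk, hk2⟩ := h2 p hp''
      have h6 := tail (hp p hp'').1 hα (inv_pos.2 ht0) hα3 hk
      have h7 : ‖cfc (fun x => 1 - α x) (resolv (Γ p))‖ ≤ 1 :=
        norm_cut_le (fun x => sub_nonneg.2 (hα1 x)) (fun x => sub_le_self _ (hα0 x)) _
      have h8 : ‖cfc (fun x => 1 - α x) (resolv (Γ p))‖ ^ 2 * ‖k‖ ^ 2 ≤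
          t⁻¹ * (ε * ‖y‖) ^ 2 := by
        calc _ ≤ 1 ^ 2 * (c * ‖A y‖) ^ 2 := by gcongr
          _ = c ^ 2 * ‖A y‖ ^ 2 := by ring
          _ ≤ c ^ 2 * (2 * μ * ‖y‖ ^ 2) := by gcongr
          _ = t⁻¹ * (2 * c ^ 2 * C⁻¹ * ‖y‖ ^ 2) := by rw [hμ1]; ring
          _ ≤ t⁻¹ * (ε ^ 2 * ‖y‖ ^ 2) := by gcongr
          _ = _ := by ring
      have h9 : ‖P p (J p y) - cfc α (resolv (Γ p)) (P p (J p y))‖ ≤ ε * ‖y‖ :=
        le_of_sq_le_sq (le_of_mul_le_mul_left (h6.trans h8) (inv_pos.2 ht0)) (by positivity)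
      exact (norm_le_insert' _ _).trans (add_le_add le_rfl h9)
    have h6 := Finset.sum_le_sum h5
    rw [Finset.sum_add_distrib, Finset.sum_const, Finset.card_range, nsmul_eq_mul] at h6
    set S := ∑ p ∈ Finset.range m, ‖cfc α (resolv (Γ p)) (P p (J p y))‖ with hS
    have h7 : ‖y‖ ≤ 2 * c * S := by
      have e : c * (m * (ε * ‖y‖)) + c * (ε * ‖y‖) = 1 / 2 * ‖y‖ := by rw [← hε2]; ring
      nlinarith [mul_le_mul_of_nonneg_left h6 hc0.le, mul_le_mul_of_nonneg_left h4 hc0.le]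
    have h8 : S ^ 2 ≤ m * ∑ p ∈ Finset.range m, ‖cfc α (resolv (Γ p)) (P p (J p y))‖ ^ 2 := by
      simpa using sq_sum_le_card_mul_sum_sq (s := Finset.range m)
        (f := fun p => ‖cfc α (resolv (Γ p)) (P p (J p y))‖)
    have h9 : ∑ p ∈ Finset.range m, ‖cfc α (resolv (Γ p)) (P p (J p y))‖ ^ 2 ≤
        Real.exp 2 * ∑ p ∈ Finset.range m, ‖heat (Γ p) (t / 2) (P p (J p y))‖ ^ 2 := by
      rw [Finset.mul_sum]
      exact Finset.sum_le_sum fun p _ => norm_cfc_sq_le hα (continuous_heatFn (by positivity))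
        (fun x _ => cut_le_heat ht0 hα0 hα1 hα2 x) _
    calc ‖y‖ ^ 2 ≤ (2 * c * S) ^ 2 := by gcongr
      _ = 4 * c ^ 2 * S ^ 2 := by ring
      _ ≤ 4 * c ^ 2 * (m * (Real.exp 2 *
          ∑ p ∈ Finset.range m, ‖heat (Γ p) (t / 2) (P p (J p y))‖ ^ 2)) := by
          gcongr
          exact h8.trans (by gcongr)
      _ = _ := by ring
  have step2 : hs w Y ≤ ENNReal.ofReal (4 * c ^ 2 * m * Real.exp 2) *
      ∑ p ∈ Finset.range m, hs w ((heat (Γ p) (t / 2) ∘L P p) ∘L (J p ∘L Y)) := by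
    simp only [hs, tsum_fintype]
    rw [Finset.sum_comm, Finset.mul_sum]
    refine Finset.sum_le_sum fun j _ => ?_
    simp only [enorm_sq_eq]
    rw [← ENNReal.ofReal_sum_of_nonneg fun _ _ => sq_nonneg _,
      ← ENNReal.ofReal_mul (by positivity)]
    exact ENNReal.ofReal_le_ofReal (key _)
  have step3 : ∀ p ∈ Finset.range m, hs w ((heat (Γ p) (t / 2) ∘L P p) ∘L (J p ∘L Y)) ≤
      ENNReal.ofReal (c ^ 2) * hs (v p) (heat (Γ p) (t / 2) ∘L P p) := by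
    intro p hp'
    obtain ⟨-, hv, hR, hP, hJ, hJc, -, -⟩ := hp p (Finset.mem_range.1 hp')
    refine (hs_comp_le hw hv (hJ.comp hYe) ((hR.cfc _).comp hP)).trans (mul_le_mul' ?_ le_rfl)
    refine enorm_sq_le_ofReal ((opNorm_comp_le _ _).trans ?_)
    exact (mul_le_of_le_one_right (norm_nonneg _) hYn).trans hJc
  have step4 := Finset.sum_le_sum step3
  rw [← Finset.mul_sum] at step4
  calc specMeasure (adjoint A ∘L A) w (Ioc 0 μ) ≤ hs w Y := le_hs_cut hM A w hβ hβ2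
    _ ≤ ENNReal.ofReal (4 * c ^ 2 * m * Real.exp 2) * (ENNReal.ofReal (c ^ 2) *
        ∑ p ∈ Finset.range m, hs (v p) (heat (Γ p) (t / 2) ∘L P p)) := step2.trans (by gcongr)
    _ = ENNReal.ofReal (4 * c ^ 2 * m * Real.exp 2 * c ^ 2) *
        ∑ p ∈ Finset.range m, hs (v p) (heat (Γ p) (t / 2) ∘L P p) := by
        rw [ENNReal.ofReal_mul (p := 4 * c ^ 2 * m * Real.exp 2) (by positivity)]
        exact (mul_assoc _ _ _).symm
    _ ≤ _ := by
        gcongr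
        have h1 : (m : ℝ) ≤ 2 * (m + 1) ^ 2 := by nlinarith [Nat.cast_nonneg (α := ℝ) m]
        calc 4 * c ^ 2 * m * Real.exp 2 * c ^ 2 = 4 * c ^ 4 * m * Real.exp 2 := by ring
          _ ≤ 4 * c ^ 4 * (2 * (m + 1) ^ 2) * Real.exp 2 := by gcongr
          _ = C := by rw [hC]; ring

end Pool.Agent.MP_d9582c_gt.H35
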